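import Mathlib
import Pool.Agent.Q71.RH.Statement
import Pool.Agent.Q71.RH.Bridge

/-!
# Hilbert-Schmidt Hankel operators with conjugate holomorphic symbols on Reinhardt domains

The definitions (`IsReinhardt`, `leb`, `L2`, `IsClass`, `bergman`, `IsProduct`, `hankelDomain`,
`IsHankelValue`, `IsHilbertSchmidtHankel`) are in `Pool.Agent.Q71.RH.Statement`.
-/

open Q71.RHS

namespace Pool.Agent.Results.MP_dc9318_an.NoHilbertSchmidt

/-- Let `n ≥ 2`, let `Ω ⊆ ℂⁿ` be a bounded Reinhardt domain (open and connected, no convexity,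
pseudoconvexity or completeness is assumed) and let `f` be holomorphic on `Ω`.  If the Hankel
operator `H_{\bar f}` is densely defined on `A²(Ω)` and extends to a Hilbert-Schmidt operator
`K : A²(Ω) → L²(Ω)`, then `K = 0`. -/
theorem result {n : ℕ} (hn : 2 ≤ n) {Ω : Set (Fin n → ℂ)} (hopen : IsOpen Ω)
    (hconn : IsConnected Ω) (hbdd : Bornology.IsBounded Ω) (hR : IsReinhardt Ω)
    {f : (Fin n → ℂ) → ℂ} (hf : DifferentiableOn ℂ f Ω) {K : A2 Ω → L2 Ω}
    (hK : IsHilbertSchmidtHankel Ω f K) (g : A2 Ω) : K g = 0 :=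
  bridge hn hopen hconn hbdd hR hf hK g

end Pool.Agent.Results.MP_dc9318_an.NoHilbertSchmidt
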